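import Pool.Agent.Results.MP_ab344f_co.SingleIntersections

/-!
The colouring problem on `r` colours: in every optimal solution all colours have the same total.
Definitions (`marg`, `Feasible`, `value`, `Optimal`) are in `Pool/Agent/H109/Frac/Defs.lean`.
-/

open Finset Pool.Agent.H109.Frac

namespace Pool.Agent.Results.MP_f3ac61_co.EqualTotals

theorem strict_of_single {r : ℕ} {a b : Finset (Fin r) → ℝ} (h : Feasible a b) {m : ℝ}
    {i : Fin r} (hi : marg a i + marg b i < m) {R S : Finset (Fin r)} (hR : 0 < a R)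
    (hS : 0 < b S) (hiR : i ∈ R) (hiS : i ∈ S) :
    ∃ R S, 0 < a R ∧ 0 < b S ∧ 1 / m < ∑ i ∈ R ∩ S, 1 / (marg a i + marg b i) := by
  refine ⟨R, S, hR, hS, ?_⟩
  have hpos : ∀ j ∈ R ∩ S, 0 < marg a j + marg b j := by
    intro j hj
    have := lt_of_lt_of_le hR (le_marg h.a_nonneg (Finset.mem_inter.1 hj).1)
    have := marg_nonneg h.b_nonneg j
    linarith
  have hmem : i ∈ R ∩ S := Finset.mem_inter.2 ⟨hiR, hiS⟩
  calc 1 / m < 1 / (marg a i + marg b i) := one_div_lt_one_div_of_lt (hpos i hmem) hi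
    _ ≤ _ := Finset.single_le_sum (f := fun i => 1 / (marg a i + marg b i))
        (fun j hj => by have := hpos j hj; positivity) hmem

/-- Optimal solutions do not satisfy the strictness condition. -/
theorem not_strict {r : ℕ} (hr : 1 ≤ r) {a b : Finset (Fin r) → ℝ} (hopt : Optimal a b)
    (hs : ∃ R S, 0 < a R ∧ 0 < b S ∧
      1 / value a b < ∑ i ∈ R ∩ S, 1 / (marg a i + marg b i)) : False := by
  obtain ⟨_, hA, hB⟩ := MP_ab344f_co.SingleIntersections.result r hr
  obtain ⟨hab, ho⟩ := hopt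
  set k := Nat.sqrt r with hk
  have hk1 : 1 ≤ k := by
    rw [hk]
    exact Nat.sqrt_pos.2 hr
  have hkR : (0 : ℝ) < k := by exact_mod_cast hk1
  have hk2 : k ^ 2 ≤ r := Nat.sqrt_le' r
  have hk3 : r < (k + 1) ^ 2 := Nat.lt_succ_sqrt' r
  rcases le_total r (k * (k + 1)) with h | h
  · obtain ⟨a', b', hab', hv⟩ := (hA k hk1 hk2 h).1
    have h3 := ho a' b' hab'
    rw [hv] at h3
    have h4 := lowerA hab (le_value a b) hs hk1 h
    have e : (2 / k + 1 / (k + 1) - r / (k ^ 2 * (k + 1)) : ℝ) =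
        (3 * (k : ℝ) ^ 2 + 2 * k - r) / (k ^ 2 * (k + 1)) := by
      field_simp
      ring
    rw [e, le_div_iff₀ (by positivity)] at h3
    linarith
  · obtain ⟨a', b', hab', hv⟩ := (hB k hk1 h hk3.le).1
    have h3 := ho a' b' hab'
    rw [hv] at h3
    have h4 := lowerB hab (le_value a b) hs hk1 h hk3
    have e : (1 / k + 2 / (k + 1) - r / (k * (k + 1) ^ 2) : ℝ) =
        (3 * (k : ℝ) ^ 2 + 4 * k + 1 - r) / (k * (k + 1) ^ 2) := by
      field_simp
      ring
    rw [e, le_div_iff₀ (by positivity)] at h3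
    linarith

/-- The colours different from `i` in `R`, as a subset of `Fin n`. -/
def pre {n : ℕ} (i : Fin (n + 1)) (R : Finset (Fin (n + 1))) : Finset (Fin n) :=
  univ.filter (fun j => i.succAbove j ∈ R)

theorem push_pos {n : ℕ} {i : Fin (n + 1)} {a : Finset (Fin (n + 1)) → ℝ} {R : Finset (Fin n)}
    (h : push univ a (pre i) R ≠ 0) : ∃ R', a R' ≠ 0 ∧ pre i R' = R := by
  by_contra hn
  push Not at hn
  refine h (Finset.sum_eq_zero fun x _ => ?_)
  split_ifs with hx
  · by_contra h0
    exact hn x h0 hx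
  · rfl

theorem push_pre_marg {n : ℕ} (i : Fin (n + 1)) (a : Finset (Fin (n + 1)) → ℝ) (j : Fin n) :
    marg (push univ a (pre i)) j = marg a (i.succAbove j) := by
  rw [push_marg]
  unfold marg
  rw [Finset.sum_filter]
  refine Finset.sum_congr rfl fun R _ => ?_
  simp [pre]

theorem feasible_pre {n : ℕ} {i : Fin (n + 1)} {a b : Finset (Fin (n + 1)) → ℝ}
    (h : Feasible a b) (hi : ∀ R S, 0 < a R → 0 < b S → i ∈ R → i ∈ S → False) :
    Feasible (push univ a (pre i)) (push univ b (pre i)) := by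
  have hle : ∀ c : Finset (Fin (n + 1)) → ℝ, (∀ R, 0 ≤ c R) → ∑ R, c R = 1 →
      ∀ R, push univ c (pre i) R ≤ 1 := by
    intro c hc hc1 R
    rw [← hc1, ← push_sum univ c (pre i)]
    exact Finset.single_le_sum (f := push univ c (pre i))
      (fun S _ => push_nonneg (fun x _ => hc x) S) (mem_univ R)
  refine ⟨fun R => push_nonneg (fun x _ => h.a_nonneg x) R, hle a h.a_nonneg h.a_sum,
    fun R => push_nonneg (fun x _ => h.b_nonneg x) R, hle b h.b_nonneg h.b_sum,
    by rw [push_sum]; exact h.a_sum, by rw [push_sum]; exact h.b_sum, fun R S hRS => ?_⟩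
  by_contra hcon
  push Not at hcon
  obtain ⟨R', hR', rfl⟩ := push_pos hcon.1
  obtain ⟨S', hS', rfl⟩ := push_pos hcon.2
  have hR0 : 0 < a R' := lt_of_le_of_ne (h.a_nonneg R') hR'.symm
  have hS0 : 0 < b S' := lt_of_le_of_ne (h.b_nonneg S') hS'.symm
  have hnd : ¬ Disjoint R' S' := fun hd => by
    rcases h.meet R' S' hd with h1 | h1
    · exact hR' h1
    · exact hS' h1
  obtain ⟨x, hxR, hxS⟩ := Finset.not_disjoint_iff.1 hnd
  have hxi : x ≠ i := fun h0 => hi R' S' hR0 hS0 (h0 ▸ hxR) (h0 ▸ hxS)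
  obtain ⟨j, rfl⟩ := Fin.exists_succAbove_eq hxi
  exact Finset.disjoint_left.1 hRS (mem_filter.2 ⟨mem_univ _, hxR⟩)
    (mem_filter.2 ⟨mem_univ _, hxS⟩)

/-- For every `r ≥ 1` and every optimal solution `(a,b)` on `r` colours, `a_i + b_i` takes the
same value for all colours `i`. -/
theorem result (r : ℕ) (hr : 1 ≤ r) (a b : Finset (Fin r) → ℝ) (hopt : Optimal a b)
    (i j : Fin r) : marg a i + marg b i = marg a j + marg b j := by
  have main : ∀ i, marg a i + marg b i = value a b := by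
    intro i
    by_contra hne
    have hlt : marg a i + marg b i < value a b := lt_of_le_of_ne (le_value a b i) hne
    obtain ⟨n, rfl⟩ : ∃ n, r = n + 1 := ⟨r - 1, by omega⟩
    rcases Nat.eq_zero_or_pos n with rfl | hn
    · -- one colour
      have h1 : value a b ≤ marg a i + marg b i := by
        unfold value
        refine ciSup_le (fun j => le_of_eq ?_)
        have hji : j = i := Fin.ext (by have h1 := j.isLt; have h2 := i.isLt; omega)
        rw [hji]
      linarith
    have hi : ∀ R S, 0 < a R → 0 < b S → i ∈ R → i ∈ S → False := fun R S hR hS h1 h2 =>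
      not_strict hr hopt (strict_of_single hopt.1 hlt hR hS h1 h2)
    have hf := feasible_pre hopt.1 hi
    have : Nonempty (Fin n) := ⟨⟨0, hn⟩⟩
    have hval : value (push univ a (pre i)) (push univ b (pre i)) ≤ value a b := by
      unfold value
      refine ciSup_le (fun j => ?_)
      rw [push_pre_marg, push_pre_marg]
      exact le_value a b _
    obtain ⟨_, hA, hB⟩ := MP_ab344f_co.SingleIntersections.result n hn
    obtain ⟨_, hA', hB'⟩ := MP_ab344f_co.SingleIntersections.result (n + 1) hr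
    set k := Nat.sqrt n with hk
    have hk1 : 1 ≤ k := by
      rw [hk]
      exact Nat.sqrt_pos.2 hn
    have hkR : (0 : ℝ) < k := by exact_mod_cast hk1
    have hk2 : k ^ 2 ≤ n := Nat.sqrt_le' n
    have hk3 : n < (k + 1) ^ 2 := Nat.lt_succ_sqrt' n
    rcases lt_or_ge n (k * (k + 1)) with h | h
    · have h1 := (hA k hk1 hk2 h.le).2 ⟨_, _, hf, rfl⟩
      obtain ⟨a', b', hab', hv⟩ := (hA' k hk1 (by omega) (by omega)).1
      have h2 := hopt.2 a' b' hab'
      rw [hv] at h2
      have h3 : ((n : ℝ) / (k ^ 2 * (k + 1))) < ((n + 1 : ℕ) : ℝ) / (k ^ 2 * (k + 1)) := by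
        apply div_lt_div_of_pos_right _ (by positivity)
        push_cast; linarith
      linarith
    · have h1 := (hB k hk1 h hk3.le).2 ⟨_, _, hf, rfl⟩
      obtain ⟨a', b', hab', hv⟩ := (hB' k hk1 (by omega) (by omega)).1
      have h2 := hopt.2 a' b' hab'
      rw [hv] at h2
      have h3 : ((n : ℝ) / (k * (k + 1) ^ 2)) < ((n + 1 : ℕ) : ℝ) / (k * (k + 1) ^ 2) := by
        apply div_lt_div_of_pos_right _ (by positivity)
        push_cast; linarith
      linarith
  rw [main i, main j]

end Pool.Agent.Results.MP_f3ac61_co.EqualTotals
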